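import Pool.Agent.Helper43.LO.Goals

set_option autoImplicit false

namespace Pool.Agent.Helper42.LO

open Finset Pool.Agent.Helper43.LO

/-- the form `16 sl + 40 kap` is a sum of squares -/
theorem form_nonneg (x0 x1 x2 x3 x4 x5 : ℚ) :
    0 ≤ 128 * x0 ^ 2 + 56 * x1 ^ 2 + 112 * x2 ^ 2 + 56 * x3 ^ 2 + 72 * x4 ^ 2 + 72 * x5 ^ 2
      - 80 * x0 * x1 + 80 * x0 * x4 - 80 * x0 * x5 - 80 * x1 * x2 - 80 * x2 * x3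
      - 80 * x3 * x4 - 80 * x4 * x5 := by
  have e : 128 * x0 ^ 2 + 56 * x1 ^ 2 + 112 * x2 ^ 2 + 56 * x3 ^ 2 + 72 * x4 ^ 2 + 72 * x5 ^ 2
      - 80 * x0 * x1 + 80 * x0 * x4 - 80 * x0 * x5 - 80 * x1 * x2 - 80 * x2 * x3
      - 80 * x3 * x4 - 80 * x4 * x5 =
      1 / 2 * (16 * x0 - 5 * x1 + 5 * x4 - 5 * x5) ^ 2
      + 1 / 174 * (87 * x1 - 80 * x2 + 25 * x4 - 25 * x5) ^ 2
      + 4 / 35583 * (818 * x2 - 435 * x3 + 125 * x4 - 125 * x5) ^ 2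
      + 4 / 1452359 * (3551 * x3 - 3465 * x4 - 625 * x5) ^ 2
      + 8 / 33233809 * (9359 * x4 - 12480 * x5) ^ 2
      + 145848 / 9359 * x5 ^ 2 := by ring
  rw [e]; positivity

theorem form_nonneg_int (x0 x1 x2 x3 x4 x5 : ℤ) :
    0 ≤ 128 * x0 ^ 2 + 56 * x1 ^ 2 + 112 * x2 ^ 2 + 56 * x3 ^ 2 + 72 * x4 ^ 2 + 72 * x5 ^ 2
      - 80 * x0 * x1 + 80 * x0 * x4 - 80 * x0 * x5 - 80 * x1 * x2 - 80 * x2 * x3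
      - 80 * x3 * x4 - 80 * x4 * x5 := by
  have h := form_nonneg (x0 : ℚ) x1 x2 x3 x4 x5
  exact_mod_cast h

/-- Cauchy-Schwarz with the weights `sl` -/
theorem cs (t0 t1 t2 t3 t4 t5 : ℤ) :
    (t0 + t1 + t2 + t3 + t4 + t5) ^ 2 ≤
      4 * (3 * t0 ^ 2 + t1 ^ 2 + 2 * t2 ^ 2 + t3 ^ 2 + 2 * t4 ^ 2 + 2 * t5 ^ 2) := by
  have h : ((t0 : ℚ) + t1 + t2 + t3 + t4 + t5) ^ 2 ≤
      4 * (3 * t0 ^ 2 + t1 ^ 2 + 2 * t2 ^ 2 + t3 ^ 2 + 2 * t4 ^ 2 + 2 * t5 ^ 2) := by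
    have e : 4 * (3 * (t0 : ℚ) ^ 2 + t1 ^ 2 + 2 * t2 ^ 2 + t3 ^ 2 + 2 * t4 ^ 2 + 2 * t5 ^ 2)
        - ((t0 : ℚ) + t1 + t2 + t3 + t4 + t5) ^ 2 =
        1 / 6 * (3 * t0 ^ 2 + t1 ^ 2 + 2 * t2 ^ 2 + t3 ^ 2 + 2 * t4 ^ 2 + 2 * t5 ^ 2)
        + (3 * t0 - t1) ^ 2 / 3 + (3 * t0 - 2 * t2) ^ 2 / 6 + (3 * t0 - t3) ^ 2 / 3
        + (3 * t0 - 2 * t4) ^ 2 / 6 + (3 * t0 - 2 * t5) ^ 2 / 6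
        + (t1 - 2 * t2) ^ 2 / 2 + (t1 - t3) ^ 2 + (t1 - 2 * t4) ^ 2 / 2
        + (t1 - 2 * t5) ^ 2 / 2 + (2 * t2 - t3) ^ 2 / 2
        + (2 * t2 - 2 * t4) ^ 2 / 4 + (2 * t2 - 2 * t5) ^ 2 / 4 + (t3 - 2 * t4) ^ 2 / 2
        + (t3 - 2 * t5) ^ 2 / 2 + (2 * t4 - 2 * t5) ^ 2 / 4 := by ring
    have : 0 ≤ 4 * (3 * (t0 : ℚ) ^ 2 + t1 ^ 2 + 2 * t2 ^ 2 + t3 ^ 2 + 2 * t4 ^ 2 + 2 * t5 ^ 2)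
        - ((t0 : ℚ) + t1 + t2 + t3 + t4 + t5) ^ 2 := by
      rw [e]; positivity
    linarith
  exact_mod_cast h

theorem goalPSD : G_PSD := by
  intro a b ha hb
  have hcs := cs (a 0 + b 0) (a 1 + b 1) (a 2 + b 2) (a 3 + b 3) (a 4 + b 4) (a 5 + b 5)
  have hf := form_nonneg_int (b 0 - a 0) (b 1 - a 1) (b 2 - a 2) (b 3 - a 3) (b 4 - a 4)
    (b 5 - a 5)
  have hp : ∀ i, 0 ≤ a i * b i := fun i => mul_nonneg (ha i) (hb i)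
  have h0 := hp 0
  have h1 := hp 1
  have h2 := hp 2
  have h3 := hp 3
  have h4 := hp 4
  have h5 := hp 5
  have es : ∑ i, (a i + b i) = (a 0 + b 0) + (a 1 + b 1) + (a 2 + b 2) + (a 3 + b 3)
      + (a 4 + b 4) + (a 5 + b 5) := by
    rw [Fin.sum_univ_six]
  have eq : ∑ i, sl i * ((a i) ^ 2 + (b i) ^ 2) = 3 * (a 0 ^ 2 + b 0 ^ 2) + (a 1 ^ 2 + b 1 ^ 2)
      + 2 * (a 2 ^ 2 + b 2 ^ 2) + (a 3 ^ 2 + b 3 ^ 2) + 2 * (a 4 ^ 2 + b 4 ^ 2)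
      + 2 * (a 5 ^ 2 + b 5 ^ 2) := by
    rw [Fin.sum_univ_six]
    simp [sl]
  obtain ⟨x0, hx0⟩ : ∃ x, x = b 0 - a 0 := ⟨_, rfl⟩
  obtain ⟨x1, hx1⟩ : ∃ x, x = b 1 - a 1 := ⟨_, rfl⟩
  obtain ⟨x2, hx2⟩ : ∃ x, x = b 2 - a 2 := ⟨_, rfl⟩
  obtain ⟨x3, hx3⟩ : ∃ x, x = b 3 - a 3 := ⟨_, rfl⟩
  obtain ⟨x4, hx4⟩ : ∃ x, x = b 4 - a 4 := ⟨_, rfl⟩
  obtain ⟨x5, hx5⟩ : ∃ x, x = b 5 - a 5 := ⟨_, rfl⟩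
  have ek : ∑ i, ∑ j, kap i j * (b i - a i) * (b j - a j) =
      2 * x0 ^ 2 + x1 ^ 2 + 2 * x2 ^ 2 + x3 ^ 2 + x4 ^ 2 + x5 ^ 2
      - 2 * x0 * x1 + 2 * x0 * x4 - 2 * x0 * x5 - 2 * x1 * x2 - 2 * x2 * x3
      - 2 * x3 * x4 - 2 * x4 * x5 := by
    simp only [Fin.sum_univ_six]
    rw [← hx0, ← hx1, ← hx2, ← hx3, ← hx4, ← hx5]
    simp [kap, Matrix.of_apply, Matrix.cons_val]
    ring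
  rw [es, eq, ek]
  rw [← hx0, ← hx1, ← hx2, ← hx3, ← hx4, ← hx5] at hf
  have q0 : (a 0 + b 0) ^ 2 = x0 ^ 2 + 4 * (a 0 * b 0) := by rw [hx0]; ring
  have q1 : (a 1 + b 1) ^ 2 = x1 ^ 2 + 4 * (a 1 * b 1) := by rw [hx1]; ring
  have q2 : (a 2 + b 2) ^ 2 = x2 ^ 2 + 4 * (a 2 * b 2) := by rw [hx2]; ring
  have q3 : (a 3 + b 3) ^ 2 = x3 ^ 2 + 4 * (a 3 * b 3) := by rw [hx3]; ring
  have q4 : (a 4 + b 4) ^ 2 = x4 ^ 2 + 4 * (a 4 * b 4) := by rw [hx4]; ring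
  have q5 : (a 5 + b 5) ^ 2 = x5 ^ 2 + 4 * (a 5 * b 5) := by rw [hx5]; ring
  have r0 : a 0 ^ 2 + b 0 ^ 2 = x0 ^ 2 + 2 * (a 0 * b 0) := by rw [hx0]; ring
  have r1 : a 1 ^ 2 + b 1 ^ 2 = x1 ^ 2 + 2 * (a 1 * b 1) := by rw [hx1]; ring
  have r2 : a 2 ^ 2 + b 2 ^ 2 = x2 ^ 2 + 2 * (a 2 * b 2) := by rw [hx2]; ring
  have r3 : a 3 ^ 2 + b 3 ^ 2 = x3 ^ 2 + 2 * (a 3 * b 3) := by rw [hx3]; ring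
  have r4 : a 4 ^ 2 + b 4 ^ 2 = x4 ^ 2 + 2 * (a 4 * b 4) := by rw [hx4]; ring
  have r5 : a 5 ^ 2 + b 5 ^ 2 = x5 ^ 2 + 2 * (a 5 * b 5) := by rw [hx5]; ring
  rw [q0, q1, q2, q3, q4, q5] at hcs
  rw [r0, r1, r2, r3, r4, r5]
  linarith

end Pool.Agent.Helper42.LO
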